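import Pool.Agent.Helper69.AS.St

/-!
# Project AS (MP_d112a4_gt): module PC (composition of the frame with a self-map of the disc)
-/

set_option autoImplicit false

open Filter Topology Matrix Set MeasureTheory
open scoped ENNReal ComplexOrder

namespace Pool.Agent.Helper26.AS

open Pool.Agent.Helper35.PM Pool.Agent.Helper69.AS

theorem hPC : StPC := by
  intro u j h T hT hm
  refine ⟨fun z hz => h.1 (T z) (hm hz), ?_⟩
  intro p hp
  obtain ⟨G, hG, hG1, hG2⟩ := h.2 (T p) (hm hp)
  exact ⟨fun z => G (T z), hG.comp hT hm, fun z hz => hG1 (T z) (hm hz), hG2⟩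

end Pool.Agent.Helper26.AS
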